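import Mathlib

set_option autoImplicit false

namespace Pool.Agent.Results.MP_4d58d7_an.Main

open MeasureTheory Matrix

/-- Squared Euclidean norm of a vector. -/
def sq {m : ℕ} (x : Fin m → ℝ) : ℝ := ∑ i, x i ^ 2

/-- Frobenius norm. -/
noncomputable def frob {m p : ℕ} (M : Matrix (Fin m) (Fin p) ℝ) : ℝ :=
  Real.sqrt (∑ i, ∑ j, M i j ^ 2)

/-- `P` is the Moore-Penrose pseudoinverse of `M` (the four Penrose conditions). -/
structure IsPinv {m p : ℕ} (M : Matrix (Fin m) (Fin p) ℝ) (P : Matrix (Fin p) (Fin m) ℝ) : Prop where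
  h1 : M * P * M = M
  h2 : P * M * P = P
  h3 : (M * P)ᵀ = M * P
  h4 : (P * M)ᵀ = P * M

/-- The optimal least-squares error, the infimum of `‖A X - B‖_F` over all `X`. -/
noncomputable def OPT {n d p : ℕ} (A : Matrix (Fin n) (Fin d) ℝ) (B : Matrix (Fin n) (Fin p) ℝ) : ℝ :=
  ⨅ X : Matrix (Fin d) (Fin p) ℝ, frob (A * X - B)

/-- `Ω` is an oblivious subspace injection of dimension `r` with injectivity `α` and failure
probability `δ`: a random `n × k` matrix, isotropic, and injective with probability at least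
`1 - δ` on each fixed `r`-dimensional subspace. -/
structure IsOSI {W : Type} [MeasurableSpace W] (μ : Measure W) {n k : ℕ}
    (Ω : W → Matrix (Fin n) (Fin k) ℝ) (r : ℕ) (α δ : ℝ) : Prop where
  meas : ∀ i j, Measurable (fun w => Ω w i j)
  isotropy : ∀ x : Fin n → ℝ, Integrable (fun w => sq ((Ω w)ᵀ *ᵥ x)) μ ∧
    ∫ w, sq ((Ω w)ᵀ *ᵥ x) ∂μ = sq x
  injectivity : ∀ V : Submodule ℝ (Fin n → ℝ), Module.finrank ℝ V = r →
    1 - δ ≤ μ.real {w | ∀ x ∈ V, α * sq x ≤ sq ((Ω w)ᵀ *ᵥ x)}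

lemma pinv_unique {m p : ℕ} (M : Matrix (Fin m) (Fin p) ℝ) (P Q : Matrix (Fin p) (Fin m) ℝ)
    (hP : IsPinv M P) (hQ : IsPinv M Q) : P = Q := by
  have e1 : M * P = M * Q := by
    have a1 : (M * P) * (M * Q) = M * Q := by rw [← Matrix.mul_assoc, hP.h1]
    have a2 : (M * Q) * (M * P) = M * P := by rw [← Matrix.mul_assoc, hQ.h1]
    have a3 : ((M * P) * (M * Q))ᵀ = (M * Q) * (M * P) := by
      rw [Matrix.transpose_mul, hP.h3, hQ.h3]
    rw [a1, a2, hQ.h3] at a3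
    exact a3.symm
  have e2 : P * M = Q * M := by
    have a1 : (P * M) * (Q * M) = P * M := by rw [Matrix.mul_assoc, ← Matrix.mul_assoc M, hQ.h1]
    have a2 : (Q * M) * (P * M) = Q * M := by rw [Matrix.mul_assoc, ← Matrix.mul_assoc M, hP.h1]
    have a3 : ((P * M) * (Q * M))ᵀ = (Q * M) * (P * M) := by
      rw [Matrix.transpose_mul, hP.h4, hQ.h4]
    rw [a1, a2, hP.h4] at a3
    exact a3
  calc P = P * M * P := hP.h2.symm
    _ = Q * M * P := by rw [e2]
    _ = Q * (M * P) := Matrix.mul_assoc _ _ _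
    _ = Q * (M * Q) := by rw [e1]
    _ = Q * M * Q := (Matrix.mul_assoc _ _ _).symm
    _ = Q := hQ.h2

/-- the random matrix -/
noncomputable def Om (a c : ℝ) : Fin 3 → Matrix (Fin 2) (Fin 3) ℝ :=
  ![0, !![a, 0, c; 0, a, c], !![a, 0, c; 0, a, -c]]

/-- its pseudoinverses -/
noncomputable def Pm (a c : ℝ) : Fin 3 → Matrix (Fin 1) (Fin 3) ℝ :=
  ![0, !![a / (a ^ 2 + c ^ 2), 0, c / (a ^ 2 + c ^ 2)], !![a / (a ^ 2 + c ^ 2), 0, c / (a ^ 2 + c ^ 2)]]

def Am : Matrix (Fin 2) (Fin 1) ℝ := !![1; 0]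
def Bm : Matrix (Fin 2) (Fin 1) ℝ := !![1; 1]

lemma Pm_pinv (a c : ℝ) (h : a ^ 2 + c ^ 2 ≠ 0) (w : Fin 3) : IsPinv ((Om a c w)ᵀ * Am) (Pm a c w) := by
  fin_cases w
  · constructor <;> simp [Om, Pm]
  · have e : (Om a c 1)ᵀ * Am = !![a; 0; c] := by
      ext i j; fin_cases i <;> fin_cases j <;> simp [Om, Am, Matrix.mul_apply, Fin.sum_univ_succ]
    have e2 : Pm a c 1 = !![a / (a ^ 2 + c ^ 2), 0, c / (a ^ 2 + c ^ 2)] := rfl
    show IsPinv ((Om a c 1)ᵀ * Am) (Pm a c 1)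
    rw [e, e2]
    constructor
    · ext i j; fin_cases i <;> fin_cases j <;> simp [Matrix.mul_apply, Fin.sum_univ_succ] <;> field_simp
    · ext i j; fin_cases i <;> fin_cases j <;> simp [Matrix.mul_apply, Fin.sum_univ_succ] <;> field_simp
    · ext i j; fin_cases i <;> fin_cases j <;> simp [Matrix.mul_apply, Fin.sum_univ_succ] <;> field_simp
    · ext i j; fin_cases i <;> fin_cases j <;> simp [Matrix.mul_apply, Fin.sum_univ_succ]
  · have e : (Om a c 2)ᵀ * Am = !![a; 0; c] := by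
      ext i j; fin_cases i <;> fin_cases j <;> simp [Om, Am, Matrix.mul_apply, Fin.sum_univ_succ]
    have e2 : Pm a c 2 = !![a / (a ^ 2 + c ^ 2), 0, c / (a ^ 2 + c ^ 2)] := rfl
    show IsPinv ((Om a c 2)ᵀ * Am) (Pm a c 2)
    rw [e, e2]
    constructor
    · ext i j; fin_cases i <;> fin_cases j <;> simp [Matrix.mul_apply, Fin.sum_univ_succ] <;> field_simp
    · ext i j; fin_cases i <;> fin_cases j <;> simp [Matrix.mul_apply, Fin.sum_univ_succ] <;> field_simp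
    · ext i j; fin_cases i <;> fin_cases j <;> simp [Matrix.mul_apply, Fin.sum_univ_succ] <;> field_simp
    · ext i j; fin_cases i <;> fin_cases j <;> simp [Matrix.mul_apply, Fin.sum_univ_succ]

/-- the probability measure on three outcomes -/
noncomputable def mu (δ : ℝ) : Measure (Fin 3) :=
  ENNReal.ofReal δ • Measure.dirac 0 + (ENNReal.ofReal ((1 - δ) / 2) • Measure.dirac 1
    + ENNReal.ofReal ((1 - δ) / 2) • Measure.dirac 2)

lemma mu_prob (δ : ℝ) (h0 : 0 < δ) (h1 : δ < 1) : IsProbabilityMeasure (mu δ) := by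
  constructor
  simp only [mu, Measure.coe_add, Measure.coe_smul, Pi.add_apply, Pi.smul_apply, measure_univ,
    smul_eq_mul, mul_one]
  rw [← ENNReal.ofReal_add (by linarith) (by linarith), ← ENNReal.ofReal_add h0.le (by linarith)]
  rw [show δ + ((1 - δ) / 2 + (1 - δ) / 2) = 1 by ring]
  exact ENNReal.ofReal_one

lemma mu_integral (δ : ℝ) (h0 : 0 < δ) (h1 : δ < 1) (f : Fin 3 → ℝ) :
    ∫ w, f w ∂(mu δ) = δ * f 0 + ((1 - δ) / 2 * f 1 + (1 - δ) / 2 * f 2) := by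
  have := mu_prob δ h0 h1
  rw [integral_fintype (by exact Integrable.of_finite)]
  have e0 : (mu δ).real {0} = δ := by
    simp only [Measure.real, mu, Measure.coe_add, Measure.coe_smul, Pi.add_apply, Pi.smul_apply,
      smul_eq_mul]
    simp [Measure.dirac_apply, ENNReal.toReal_ofReal h0.le]
  have e1 : (mu δ).real {1} = (1 - δ) / 2 := by
    simp only [Measure.real, mu, Measure.coe_add, Measure.coe_smul, Pi.add_apply, Pi.smul_apply,
      smul_eq_mul]
    simp [Measure.dirac_apply]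
    linarith
  have e2 : (mu δ).real {2} = (1 - δ) / 2 := by
    simp only [Measure.real, mu, Measure.coe_add, Measure.coe_smul, Pi.add_apply, Pi.smul_apply,
      smul_eq_mul]
    simp [Measure.dirac_apply]
    linarith
  rw [Fin.sum_univ_three, e0, e1, e2]
  simp only [smul_eq_mul]
  ring

lemma sq_Om (a c : ℝ) (x : Fin 2 → ℝ) :
    sq ((Om a c 0)ᵀ *ᵥ x) = 0 ∧
    sq ((Om a c 1)ᵀ *ᵥ x) = a ^ 2 * (x 0 ^ 2 + x 1 ^ 2) + c ^ 2 * (x 0 + x 1) ^ 2 ∧
    sq ((Om a c 2)ᵀ *ᵥ x) = a ^ 2 * (x 0 ^ 2 + x 1 ^ 2) + c ^ 2 * (x 0 - x 1) ^ 2 := by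
  refine ⟨?_, ?_, ?_⟩
  · simp [Om, sq]
  · simp [Om, sq, Matrix.mulVec, dotProduct, Fin.sum_univ_succ]
    ring
  · simp [Om, sq, Matrix.mulVec, dotProduct, Fin.sum_univ_succ]
    ring

lemma OSI_Om (a c δ ε : ℝ) (h0 : 0 < δ) (h1 : δ < 1) (ha : a ^ 2 = 1 - ε)
    (hac : (1 - δ) * (a ^ 2 + c ^ 2) = 1) : IsOSI (mu δ) (Om a c) 1 (1 - ε) δ := by
  have := mu_prob δ h0 h1
  refine ⟨fun i j => measurable_from_top, fun x => ⟨Integrable.of_finite, ?_⟩, ?_⟩
  · rw [mu_integral δ h0 h1, (sq_Om a c x).1, (sq_Om a c x).2.1, (sq_Om a c x).2.2]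
    have e : sq x = x 0 ^ 2 + x 1 ^ 2 := by simp [sq, Fin.sum_univ_succ]
    rw [e]
    calc _ = ((1 - δ) * (a ^ 2 + c ^ 2)) * (x 0 ^ 2 + x 1 ^ 2) := by ring
      _ = _ := by rw [hac, one_mul]
  · intro V _
    have hsub : ({1, 2} : Set (Fin 3)) ⊆ {w | ∀ x ∈ V, (1 - ε) * sq x ≤ sq ((Om a c w)ᵀ *ᵥ x)} := by
      intro w hw x _
      have e : sq x = x 0 ^ 2 + x 1 ^ 2 := by simp [sq, Fin.sum_univ_succ]
      rcases hw with rfl | hw
      · rw [(sq_Om a c x).2.1, e, ha]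
        nlinarith [mul_nonneg (sq_nonneg c) (sq_nonneg (x 0 + x 1))]
      · have hw' : w = 2 := hw
        subst hw'
        rw [(sq_Om a c x).2.2, e, ha]
        nlinarith [mul_nonneg (sq_nonneg c) (sq_nonneg (x 0 - x 1))]
    refine le_trans ?_ (measureReal_mono hsub)
    have e1 : (mu δ).real {1, 2} = 1 - δ := by
      simp only [Measure.real, mu, Measure.coe_add, Measure.coe_smul, Pi.add_apply, Pi.smul_apply,
        smul_eq_mul]
      simp [Measure.dirac_apply]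
      rw [ENNReal.toReal_add ENNReal.ofReal_ne_top ENNReal.ofReal_ne_top,
        ENNReal.toReal_ofReal (by linarith)]
      ring
    rw [e1]

lemma frob_X (X : Matrix (Fin 1) (Fin 1) ℝ) :
    frob (Am * X - Bm) = Real.sqrt ((X 0 0 - 1) ^ 2 + 1) := by
  have e0 : (Am * X - Bm) 0 0 = X 0 0 - 1 := by
    rw [Matrix.sub_apply, Matrix.mul_apply]; simp [Am, Bm]
  have e1 : (Am * X - Bm) 1 0 = -1 := by
    rw [Matrix.sub_apply, Matrix.mul_apply]; simp [Am, Bm]
  unfold frob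
  congr 1
  rw [Fin.sum_univ_two, Fin.sum_univ_one, Fin.sum_univ_one, e0, e1]
  ring

lemma OPT_AB : OPT Am Bm = 1 := by
  have h := frob_X
  unfold OPT
  apply le_antisymm
  · have hb : BddBelow (Set.range fun X : Matrix (Fin 1) (Fin 1) ℝ => frob (Am * X - Bm)) :=
      ⟨0, by rintro _ ⟨X, rfl⟩; exact Real.sqrt_nonneg _⟩
    refine (ciInf_le hb !![1]).trans ?_
    rw [h]; simp
  · apply le_ciInf
    intro X
    rw [h]
    rw [Real.one_le_sqrt]
    nlinarith [sq_nonneg (X 0 0 - 1)]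

/-- For every fixed failure probability `δ ∈ (0,1)` (in particular `δ = 0.01`), every constant `C`
and every `c₀ > 0` there is an oblivious subspace injection of dimension `d` with injectivity
`1 - ε` for which the bound `‖A X̃ - B‖_F ≤ (1 + C ε) OPT` fails with probability greater than
`1 - c₀` (in the example it fails surely, already for `d = p = 1`). -/
theorem result : ∀ δ : ℝ, 0 < δ → δ < 1 → ∀ C c₀ : ℝ, 0 < c₀ →
    ∃ (n d p k : ℕ) (ε : ℝ) (A : Matrix (Fin n) (Fin d) ℝ) (B : Matrix (Fin n) (Fin p) ℝ)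
      (W : Type) (_ : MeasurableSpace W) (μ : Measure W) (Ω : W → Matrix (Fin n) (Fin k) ℝ),
      0 < n ∧ 0 < d ∧ 0 < p ∧ 0 < k ∧ 0 < ε ∧ ε < 1 ∧ A.rank = d ∧ IsProbabilityMeasure μ ∧
      IsOSI μ Ω d (1 - ε) δ ∧ (∀ w, ∃ P, IsPinv ((Ω w)ᵀ * A) P) ∧
      1 - c₀ < μ.real {w | ∀ P, IsPinv ((Ω w)ᵀ * A) P →
        (1 + C * ε) * OPT A B < frob (A * (P * ((Ω w)ᵀ * B)) - B)} := by
  intro δ h0 h1 C c₀ hc₀
  obtain ⟨ε, hε0, hε1, hεC⟩ : ∃ ε : ℝ, 0 < ε ∧ ε < 1 ∧ 1 + C * ε < Real.sqrt (1 + δ ^ 2) := by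
    have hs : 1 < Real.sqrt (1 + δ ^ 2) := by
      rw [Real.lt_sqrt (by norm_num)]
      nlinarith [sq_nonneg δ, mul_pos h0 h0]
    set g := Real.sqrt (1 + δ ^ 2) - 1 with hg
    have hg0 : 0 < g := by linarith
    refine ⟨min (1 / 2) (g / (2 * (|C| + 1))), by positivity, ?_, ?_⟩
    · exact lt_of_le_of_lt (min_le_left _ _) (by norm_num)
    · have h2 : min (1 / 2) (g / (2 * (|C| + 1))) ≤ g / (2 * (|C| + 1)) := min_le_right _ _
      have h3 : 0 < min (1 / 2) (g / (2 * (|C| + 1))) := by positivity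
      have h4 : C * min (1 / 2) (g / (2 * (|C| + 1))) ≤ (|C| + 1) * (g / (2 * (|C| + 1))) := by
        calc C * min (1 / 2) (g / (2 * (|C| + 1))) ≤ (|C| + 1) * min (1 / 2) (g / (2 * (|C| + 1))) := by
              apply mul_le_mul_of_nonneg_right _ h3.le
              linarith [le_abs_self C]
          _ ≤ _ := mul_le_mul_of_nonneg_left h2 (by positivity)
      have h5 : (|C| + 1) * (g / (2 * (|C| + 1))) = g / 2 := by
        have : |C| + 1 ≠ 0 := by positivity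
        field_simp
      linarith
  set s : ℝ := δ / (1 - δ) + ε with hs
  have h1δ : 0 < 1 - δ := by linarith
  have hs0 : 0 < s := by positivity
  set a : ℝ := Real.sqrt (1 - ε) with ha
  set c : ℝ := Real.sqrt s with hc
  have ha2 : a ^ 2 = 1 - ε := Real.sq_sqrt (by linarith)
  have hc2 : c ^ 2 = s := Real.sq_sqrt hs0.le
  have hac : (1 - δ) * (a ^ 2 + c ^ 2) = 1 := by
    rw [ha2, hc2, hs]
    field_simp
    ring
  have hsum : a ^ 2 + c ^ 2 ≠ 0 := by
    intro h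
    rw [h, mul_zero] at hac
    exact zero_ne_one hac
  have hprob := mu_prob δ h0 h1
  refine ⟨2, 1, 1, 3, ε, Am, Bm, Fin 3, ⊤, mu δ, Om a c, by norm_num, by norm_num, by norm_num,
    by norm_num, hε0, hε1, ?_, hprob, OSI_Om a c δ ε h0 h1 ha2 hac,
    fun w => ⟨_, Pm_pinv a c hsum w⟩, ?_⟩
  · apply le_antisymm
    · exact (Matrix.rank_le_width Am)
    · rw [Nat.one_le_iff_ne_zero]
      intro h
      rw [Matrix.rank, Submodule.finrank_eq_zero] at h
      have h2 : Am.mulVecLin ![1] ∈ LinearMap.range Am.mulVecLin := ⟨_, rfl⟩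
      rw [h, Submodule.mem_bot] at h2
      have h3 := congrFun h2 0
      simp [Am, Matrix.mulVec, dotProduct] at h3
  · have hall : {w | ∀ P, IsPinv ((Om a c w)ᵀ * Am) P →
        (1 + C * ε) * OPT Am Bm < frob (Am * (P * ((Om a c w)ᵀ * Bm)) - Bm)} = Set.univ := by
      rw [Set.eq_univ_iff_forall]
      intro w P hP
      rw [pinv_unique _ _ _ hP (Pm_pinv a c hsum w), OPT_AB, mul_one]
      refine hεC.trans_le ?_
      rw [frob_X]
      apply Real.sqrt_le_sqrt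
      have hkey : δ ≤ c ^ 2 / (a ^ 2 + c ^ 2) := by
        have h2 : 0 < a ^ 2 + c ^ 2 := by rw [ha2, hc2]; linarith
        rw [le_div_iff₀ h2]
        have h3 : a ^ 2 + c ^ 2 = 1 / (1 - δ) := by
          field_simp; linarith
        rw [h3, hc2, hs]
        have : δ * (1 / (1 - δ)) = δ / (1 - δ) := by ring
        rw [this]; linarith
      fin_cases w
      · have e : (Pm a c 0 * ((Om a c 0)ᵀ * Bm)) 0 0 - 1 = -1 := by
          simp [Pm]
        show 1 + δ ^ 2 ≤ ((Pm a c 0 * ((Om a c 0)ᵀ * Bm)) 0 0 - 1) ^ 2 + 1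
        rw [e]
        nlinarith
      · have e : (Pm a c 1 * ((Om a c 1)ᵀ * Bm)) 0 0 - 1 = c ^ 2 / (a ^ 2 + c ^ 2) := by
          simp [Om, Pm, Bm, Matrix.mul_apply, Fin.sum_univ_succ]
          field_simp
          ring
        show 1 + δ ^ 2 ≤ ((Pm a c 1 * ((Om a c 1)ᵀ * Bm)) 0 0 - 1) ^ 2 + 1
        rw [e]
        nlinarith
      · have e : (Pm a c 2 * ((Om a c 2)ᵀ * Bm)) 0 0 - 1 = - (c ^ 2 / (a ^ 2 + c ^ 2)) := by
          simp [Om, Pm, Bm, Matrix.mul_apply, Fin.sum_univ_succ]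
          field_simp
          ring
        show 1 + δ ^ 2 ≤ ((Pm a c 2 * ((Om a c 2)ᵀ * Bm)) 0 0 - 1) ^ 2 + 1
        rw [e]
        nlinarith
    rw [hall]
    have h9 : (mu δ).real Set.univ = 1 := by simp [Measure.real]
    rw [h9]
    linarith

end Pool.Agent.Results.MP_4d58d7_an.Main
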